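import Pool.Agent.Q205.WV.Stm

/-! WV-TAN: level functions with law close to the Cauchy law (project WV of helper205, MP_28b024_mp). -/

set_option autoImplicit false

namespace Pool.Agent.Q166.WV.TAN

open MeasureTheory Set
open Pool.Agent.Q205.WV (S_TV S_TC S_TM J_TAN fT RT)
open Pool.Agent.W792.WA (S_TAN IsLv lev)

/-- the complement of the middle part of the circle -/
def rest (τ : ℝ) : Set ℝ := Ioc (0 : ℝ) 1 \ Icc (τ / 2) (1 - τ / 2)

theorem meas_rest (τ : ℝ) : MeasurableSet (rest τ) := measurableSet_Ioc.diff measurableSet_Icc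

theorem vol_rest (τ : ℝ) (h0 : 0 < τ) (h1 : τ ≤ 1 / 2) : volume (rest τ) < ⊤ ∧ volume.real (rest τ) ≤ τ := by
  have hsub : rest τ ⊆ Ioc 0 (τ / 2) ∪ Ioc (1 - τ / 2) 1 := by
    rintro x ⟨hx, hx'⟩
    by_cases h : x ≤ τ / 2
    · exact Or.inl ⟨hx.1, h⟩
    · right
      refine ⟨?_, hx.2⟩
      by_contra h'
      exact hx' ⟨(not_le.mp h).le, not_lt.mp h'⟩
  have hle : volume (rest τ) ≤ ENNReal.ofReal τ := by
    calc volume (rest τ) ≤ volume (Ioc 0 (τ / 2) ∪ Ioc (1 - τ / 2) 1) := measure_mono hsub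
      _ ≤ volume (Ioc 0 (τ / 2)) + volume (Ioc (1 - τ / 2) 1) := measure_union_le _ _
      _ = ENNReal.ofReal τ := by
        rw [Real.volume_Ioc, Real.volume_Ioc, ← ENNReal.ofReal_add (by linarith) (by linarith)]
        congr 1
        ring
  refine ⟨lt_of_le_of_lt hle ENNReal.ofReal_lt_top, ?_⟩
  rw [Measure.real]
  exact ENNReal.toReal_le_of_le_ofReal h0.le hle

theorem inter_eq (τ : ℝ) (h0 : 0 < τ) : Ioc (0 : ℝ) 1 ∩ Icc (τ / 2) (1 - τ / 2) = Icc (τ / 2) (1 - τ / 2) := by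
  apply inter_eq_right.mpr
  intro x hx
  exact ⟨by linarith [hx.1], by linarith [hx.2]⟩

theorem main (hTV : S_TV) (hTC : S_TC) (hTM : S_TM) : S_TAN := by
  intro γ τ hγ hτ hτ1
  obtain ⟨hcont, hbd, hR, hatom⟩ := hTV τ hτ hτ1
  obtain ⟨hRpos, hRle, hval⟩ := hR γ hγ
  obtain ⟨hfin, hvol⟩ := vol_rest τ hτ hτ1
  have hpi := Real.pi_pos
  have hψm : Measurable (fun φ : ℝ => RT γ τ * fT τ (φ : UnitAddCircle)) := by
    have h1 : Continuous (fun φ : ℝ => fT τ (φ : UnitAddCircle)) :=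
      hcont.comp (AddCircle.continuous_mk' (1 : ℝ))
    exact (continuous_const.mul h1).measurable
  refine ⟨⟨fT τ, hcont⟩, RT γ τ, ⟨hbd, hatom⟩, hRpos, ?_, ?_⟩
  · intro f F hf hF
    have hF0 : 0 ≤ F := (norm_nonneg _).trans (hF 0)
    have e1 : ∫ a, f a ∂(lev ⟨fT τ, hcont⟩ (RT γ τ)) =
        ∫ φ in Ioc (0 : ℝ) 1, f (RT γ τ * fT τ (φ : UnitAddCircle)) := by
      unfold lev
      exact integral_map hψm.aemeasurable hf.aestronglyMeasurable
    have e2 : ∫ a, f (γ * a) ∂(ProbabilityTheory.cauchyMeasure 0 1) =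
        ∫ u in Ioc (0 : ℝ) 1, f (γ * Real.tan (Real.pi * (u - 1 / 2))) :=
      hTC (fun a => f (γ * a)) (hf.comp (measurable_const_mul γ)) ⟨F, fun a => hF _⟩
    rw [e1, e2]
    have m1 : Measurable (fun φ : ℝ => f (RT γ τ * fT τ (φ : UnitAddCircle))) := hf.comp hψm
    have m2 : Measurable (fun u : ℝ => f (γ * Real.tan (Real.pi * (u - 1 / 2)))) := by
      apply hf.comp
      apply Measurable.const_mul
      have ht : Measurable Real.tan := by
        have e : Real.tan = fun x => Real.sin x / Real.cos x := funext Real.tan_eq_sin_div_cos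
        rw [e]
        exact Real.measurable_sin.div Real.measurable_cos
      exact ht.comp (by fun_prop)
    have i1 : Integrable (fun φ : ℝ => f (RT γ τ * fT τ (φ : UnitAddCircle))) (volume.restrict (Ioc (0 : ℝ) 1)) :=
      Integrable.of_bound m1.aestronglyMeasurable F (Filter.Eventually.of_forall fun _ => hF _)
    have i2 : Integrable (fun u : ℝ => f (γ * Real.tan (Real.pi * (u - 1 / 2)))) (volume.restrict (Ioc (0 : ℝ) 1)) :=
      Integrable.of_bound m2.aestronglyMeasurable F (Filter.Eventually.of_forall fun _ => hF _)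
    rw [← integral_sub i1 i2]
    have e3 : ∫ φ in rest τ, (f (RT γ τ * fT τ (φ : UnitAddCircle)) - f (γ * Real.tan (Real.pi * (φ - 1 / 2)))) =
        ∫ φ in Ioc (0 : ℝ) 1, (f (RT γ τ * fT τ (φ : UnitAddCircle)) - f (γ * Real.tan (Real.pi * (φ - 1 / 2)))) := by
      symm
      apply setIntegral_eq_of_subset_of_forall_sdiff_eq_zero measurableSet_Ioc sdiff_subset
      rintro x ⟨hx1, hx2⟩
      have hx3 : x ∈ Icc (τ / 2) (1 - τ / 2) := by
        by_contra h
        exact hx2 ⟨hx1, h⟩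
      rw [hval x hx3.1 hx3.2, sub_self]
    rw [← e3]
    have h4 := norm_setIntegral_le_of_norm_le_const (μ := volume) (s := rest τ)
      (f := fun φ : ℝ => f (RT γ τ * fT τ (φ : UnitAddCircle)) - f (γ * Real.tan (Real.pi * (φ - 1 / 2))))
      (C := 2 * F) hfin (fun x _ => by
        have := norm_sub_le (f (RT γ τ * fT τ (x : UnitAddCircle))) (f (γ * Real.tan (Real.pi * (x - 1 / 2))))
        linarith [hF (RT γ τ * fT τ (x : UnitAddCircle)), hF (γ * Real.tan (Real.pi * (x - 1 / 2)))])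
    refine h4.trans ?_
    have h5 : 2 * F * volume.real (rest τ) ≤ 2 * F * τ := mul_le_mul_of_nonneg_left hvol (by positivity)
    linarith
  · intro p hp hp2
    show ∫ φ in Ioc (0 : ℝ) 1, |RT γ τ * fT τ (φ : UnitAddCircle)| ^ p ≤ _
    have hp0 : 0 < p - 1 := by linarith
    have hmeas : Measurable (fun φ : ℝ => |RT γ τ * fT τ (φ : UnitAddCircle)| ^ p) :=
      (continuous_abs.measurable.comp hψm).pow_const p
    have hle : ∀ φ : ℝ, |RT γ τ * fT τ (φ : UnitAddCircle)| ^ p ≤ RT γ τ ^ p := by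
      intro φ
      apply Real.rpow_le_rpow (abs_nonneg _) _ (by linarith)
      rw [abs_mul, abs_of_pos hRpos]
      calc RT γ τ * |fT τ (φ : UnitAddCircle)| ≤ RT γ τ * 1 :=
            mul_le_mul_of_nonneg_left (hbd _) hRpos.le
        _ = _ := mul_one _
    have hint : IntegrableOn (fun φ : ℝ => |RT γ τ * fT τ (φ : UnitAddCircle)| ^ p) (Ioc (0 : ℝ) 1) := by
      apply Integrable.of_bound hmeas.aestronglyMeasurable (RT γ τ ^ p)
      refine Filter.Eventually.of_forall fun φ => ?_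
      rw [Real.norm_eq_abs, abs_of_nonneg (by positivity)]
      exact hle φ
    rw [← integral_inter_add_sdiff (measurableSet_Icc (a := τ / 2) (b := 1 - τ / 2)) hint, inter_eq τ hτ]
    have hA : ∫ φ in Icc (τ / 2) (1 - τ / 2), |RT γ τ * fT τ (φ : UnitAddCircle)| ^ p ≤
        γ ^ p * ((2 / Real.pi) ^ p * τ ^ (1 - p) / (p - 1)) := by
      have e4 : ∫ φ in Icc (τ / 2) (1 - τ / 2), |RT γ τ * fT τ (φ : UnitAddCircle)| ^ p =
          ∫ φ in Icc (τ / 2) (1 - τ / 2), γ ^ p * |Real.tan (Real.pi * (φ - 1 / 2))| ^ p := by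
        apply setIntegral_congr_fun measurableSet_Icc
        intro φ hφ
        show |RT γ τ * fT τ (φ : UnitAddCircle)| ^ p = γ ^ p * |Real.tan (Real.pi * (φ - 1 / 2))| ^ p
        rw [hval φ hφ.1 hφ.2, abs_mul, abs_of_pos hγ, Real.mul_rpow hγ.le (abs_nonneg _)]
      rw [e4, integral_const_mul]
      exact mul_le_mul_of_nonneg_left (hTM τ p hτ hτ1 hp hp2) (by positivity)
    have hB : ∫ φ in Ioc (0 : ℝ) 1 \ Icc (τ / 2) (1 - τ / 2), |RT γ τ * fT τ (φ : UnitAddCircle)| ^ p ≤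
        γ ^ p * ((2 / Real.pi) ^ p * τ ^ (1 - p)) := by
      have h4 := norm_setIntegral_le_of_norm_le_const (μ := volume) (s := rest τ)
        (f := fun φ : ℝ => |RT γ τ * fT τ (φ : UnitAddCircle)| ^ p)
        (C := RT γ τ ^ p) hfin (fun x _ => by
          rw [Real.norm_eq_abs, abs_of_nonneg (by positivity)]
          exact hle x)
      have h5 := (le_abs_self _).trans h4
      refine h5.trans ?_
      have h6 : RT γ τ ^ p ≤ (γ * (2 / (Real.pi * τ))) ^ p :=
        Real.rpow_le_rpow hRpos.le hRle (by linarith)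
      have h7 : (γ * (2 / (Real.pi * τ))) ^ p * τ = γ ^ p * ((2 / Real.pi) ^ p * τ ^ (1 - p)) := by
        have e5 : γ * (2 / (Real.pi * τ)) = γ * (2 / Real.pi) / τ := by field_simp
        rw [e5, Real.div_rpow (by positivity) hτ.le, Real.mul_rpow hγ.le (by positivity),
          Real.rpow_sub hτ, Real.rpow_one]
        field_simp
      calc RT γ τ ^ p * volume.real (rest τ) ≤ (γ * (2 / (Real.pi * τ))) ^ p * τ :=
            mul_le_mul h6 hvol measureReal_nonneg (by positivity)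
        _ = _ := h7
    have hC : γ ^ p * ((2 / Real.pi) ^ p * τ ^ (1 - p) / (p - 1)) + γ ^ p * ((2 / Real.pi) ^ p * τ ^ (1 - p)) ≤
        2 * γ ^ p * τ ^ (1 - p) / (p - 1) := by
      have h8 : (2 / Real.pi) ^ p ≤ 1 := by
        apply Real.rpow_le_one (by positivity) _ (by linarith)
        rw [div_le_one hpi]
        linarith [Real.pi_gt_three]
      have h9 : 0 < γ ^ p * τ ^ (1 - p) := by positivity
      have e6 : γ ^ p * ((2 / Real.pi) ^ p * τ ^ (1 - p) / (p - 1)) + γ ^ p * ((2 / Real.pi) ^ p * τ ^ (1 - p)) =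
          (γ ^ p * τ ^ (1 - p)) * ((2 / Real.pi) ^ p * p) / (p - 1) := by
        field_simp
        ring
      have e7 : 2 * γ ^ p * τ ^ (1 - p) / (p - 1) = (γ ^ p * τ ^ (1 - p)) * 2 / (p - 1) := by ring
      rw [e6, e7]
      apply div_le_div_of_nonneg_right _ hp0.le
      apply mul_le_mul_of_nonneg_left _ h9.le
      have h10 : (0 : ℝ) ≤ (2 / Real.pi) ^ p := by positivity
      nlinarith
    linarith

end Pool.Agent.Q166.WV.TAN
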