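import Pool.Agent.Q205.WV.Stm

/-! WV-TM: moment of the truncated tangent (project WV of helper205, MP_28b024_mp). -/

set_option autoImplicit false

namespace Pool.Agent.Q166.WV.TM

open MeasureTheory Set

theorem cos_pos' {φ : ℝ} (h0 : 0 < φ) (h1 : φ < 1) : 0 < Real.cos (Real.pi * (φ - 1 / 2)) := by
  apply Real.cos_pos_of_mem_Ioo
  have hpi := Real.pi_pos
  constructor <;> nlinarith

theorem cont_tan (p : ℝ) (hp : 0 ≤ p) {φ : ℝ} (h0 : 0 < φ) (h1 : φ < 1) :
    ContinuousAt (fun φ : ℝ => |Real.tan (Real.pi * (φ - 1 / 2))| ^ p) φ := by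
  have h2 : ContinuousAt Real.tan (Real.pi * (φ - 1 / 2)) :=
    Real.continuousAt_tan.mpr (cos_pos' h0 h1).ne'
  have h3 : ContinuousAt (fun φ : ℝ => Real.tan (Real.pi * (φ - 1 / 2))) φ :=
    ContinuousAt.comp (f := fun φ : ℝ => Real.pi * (φ - 1 / 2)) h2 (by fun_prop)
  exact h3.abs.rpow_const (Or.inr hp)

theorem tan_le {φ : ℝ} (h0 : 0 < φ) (h1 : φ ≤ 1 / 2) :
    |Real.tan (Real.pi * (φ - 1 / 2))| ≤ (Real.pi * φ)⁻¹ := by
  have hpi := Real.pi_pos
  have e : Real.pi * (φ - 1 / 2) = -(Real.pi / 2 - Real.pi * φ) := by ring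
  rw [e, Real.tan_neg, abs_neg, Real.tan_pi_div_two_sub]
  have hx : 0 < Real.pi * φ := by positivity
  rcases h1.lt_or_eq with h | h
  · have h2 : Real.pi * φ < Real.pi / 2 := by nlinarith
    have h3 := Real.lt_tan hx h2
    rw [abs_of_pos (inv_pos.mpr (hx.trans h3))]
    exact inv_anti₀ hx h3.le
  · have h2 : Real.pi * φ = Real.pi / 2 := by rw [h]; ring
    rw [h2, Real.tan_pi_div_two, inv_zero, abs_zero]
    positivity

theorem main : Pool.Agent.Q205.WV.S_TM := by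
  intro τ p hτ hτ1 hp hp2
  have hpi := Real.pi_pos
  have hp0 : 0 < p - 1 := by linarith
  have hle : τ / 2 ≤ 1 - τ / 2 := by linarith
  have hle2 : τ / 2 ≤ 1 / 2 := by linarith
  rw [integral_Icc_eq_integral_Ioc, ← intervalIntegral.integral_of_le hle]
  have hI1 : IntervalIntegrable (fun φ : ℝ => |Real.tan (Real.pi * (φ - 1 / 2))| ^ p) volume (τ / 2) (1 / 2) := by
    apply ContinuousOn.intervalIntegrable
    intro φ hφ
    rw [uIcc_of_le hle2] at hφ
    exact (cont_tan p (by linarith) (by linarith [hφ.1]) (by linarith [hφ.2])).continuousWithinAt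
  have hI2 : IntervalIntegrable (fun φ : ℝ => |Real.tan (Real.pi * (φ - 1 / 2))| ^ p) volume (1 / 2) (1 - τ / 2) := by
    apply ContinuousOn.intervalIntegrable
    intro φ hφ
    rw [uIcc_of_le (by linarith)] at hφ
    exact (cont_tan p (by linarith) (by linarith [hφ.1]) (by linarith [hφ.2])).continuousWithinAt
  rw [← intervalIntegral.integral_add_adjacent_intervals hI1 hI2]
  have hsym : ∫ φ in (1 / 2 : ℝ)..(1 - τ / 2), |Real.tan (Real.pi * (φ - 1 / 2))| ^ p =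
      ∫ φ in (τ / 2)..(1 / 2 : ℝ), |Real.tan (Real.pi * (φ - 1 / 2))| ^ p := by
    have h1 := intervalIntegral.integral_comp_sub_left (a := τ / 2) (b := 1 / 2)
      (fun φ : ℝ => |Real.tan (Real.pi * (φ - 1 / 2))| ^ p) 1
    have e1 : (1 : ℝ) - 1 / 2 = 1 / 2 := by norm_num
    rw [e1] at h1
    rw [← h1]
    apply intervalIntegral.integral_congr
    intro φ _
    show |Real.tan (Real.pi * (1 - φ - 1 / 2))| ^ p = |Real.tan (Real.pi * (φ - 1 / 2))| ^ p
    have e2 : Real.pi * (1 - φ - 1 / 2) = -(Real.pi * (φ - 1 / 2)) := by ring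
    rw [e2, Real.tan_neg, abs_neg]
  rw [hsym]
  have h0n : (0 : ℝ) ∉ uIcc (τ / 2) (1 / 2 : ℝ) := by
    rw [uIcc_of_le hle2]
    intro h
    linarith [h.1]
  have hI3 : IntervalIntegrable (fun φ : ℝ => Real.pi ^ (-p) * φ ^ (-p)) volume (τ / 2) (1 / 2) :=
    (intervalIntegral.intervalIntegrable_rpow (Or.inr h0n)).const_mul _
  have hmono : ∫ φ in (τ / 2)..(1 / 2 : ℝ), |Real.tan (Real.pi * (φ - 1 / 2))| ^ p ≤
      ∫ φ in (τ / 2)..(1 / 2 : ℝ), Real.pi ^ (-p) * φ ^ (-p) := by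
    apply intervalIntegral.integral_mono_on hle2 hI1 hI3
    intro φ hφ
    have hφ0 : 0 < φ := by linarith [hφ.1]
    have h2 := Real.rpow_le_rpow (abs_nonneg _) (tan_le hφ0 hφ.2) (by linarith : (0 : ℝ) ≤ p)
    refine h2.trans (le_of_eq ?_)
    rw [Real.inv_rpow (by positivity), ← Real.rpow_neg (by positivity), Real.mul_rpow hpi.le hφ0.le]
  have hval : ∫ φ in (τ / 2)..(1 / 2 : ℝ), Real.pi ^ (-p) * φ ^ (-p) ≤
      Real.pi ^ (-p) * ((τ / 2) ^ (1 - p) / (p - 1)) := by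
    rw [intervalIntegral.integral_const_mul, integral_rpow (Or.inr ⟨by linarith, h0n⟩)]
    apply mul_le_mul_of_nonneg_left _ (by positivity)
    have e1 : -p + 1 = 1 - p := by ring
    rw [e1]
    have e2 : ((1 / 2 : ℝ) ^ (1 - p) - (τ / 2) ^ (1 - p)) / (1 - p) =
        ((τ / 2) ^ (1 - p) - (1 / 2 : ℝ) ^ (1 - p)) / (p - 1) := by
      rw [← neg_div_neg_eq]
      congr 1 <;> ring
    rw [e2]
    apply div_le_div_of_nonneg_right _ hp0.le
    have : 0 ≤ (1 / 2 : ℝ) ^ (1 - p) := by positivity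
    linarith
  have hfin : 2 * (Real.pi ^ (-p) * ((τ / 2) ^ (1 - p) / (p - 1))) = (2 / Real.pi) ^ p * τ ^ (1 - p) / (p - 1) := by
    rw [Real.div_rpow hτ.le (by norm_num), Real.div_rpow (by norm_num) hpi.le, Real.rpow_neg hpi.le]
    have e3 : (2 : ℝ) ^ (1 - p) = 2 / 2 ^ p := by
      rw [Real.rpow_sub (by norm_num), Real.rpow_one]
    rw [e3]
    have h2p : (0 : ℝ) < 2 ^ p := by positivity
    have hpp : (0 : ℝ) < Real.pi ^ p := by positivity
    field_simp
  linarith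

end Pool.Agent.Q166.WV.TM
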